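import Mathlib

set_option autoImplicit false

namespace Pool.Agent.Results.MP_3627f5_co.LogLowerBound

/-- A configuration of the pebbles `1, …, n` on the vertex set `V`: label `0` means unoccupied, and every
pebble `i ≠ 0` lies on exactly one vertex. -/
def IsConfig {V : Type} {n : ℕ} (f : V → Fin (n + 1)) : Prop :=
  ∀ i : Fin (n + 1), i ≠ 0 → ∃! v, f v = i

/-- One move: a pebble on `u` is shifted to an adjacent unoccupied vertex `v`. -/
def Move {V : Type} (G : SimpleGraph V) {n : ℕ} (f f' : V → Fin (n + 1)) : Prop :=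
  ∃ u v, G.Adj u v ∧ f u ≠ 0 ∧ f v = 0 ∧ f' u = 0 ∧ f' v = f u ∧ ∀ w, w ≠ u → w ≠ v → f' w = f w

/-- `f` is transformed into `g` by a sequence of exactly `t` moves. -/
def Transforms {V : Type} (G : SimpleGraph V) {n : ℕ} (t : ℕ) (f g : V → Fin (n + 1)) : Prop :=
  ∃ c : ℕ → V → Fin (n + 1), c 0 = f ∧ c t = g ∧ ∀ s < t, Move G (c s) (c (s + 1))

/-- The minimum number of moves in a sequence transforming `f` into `g`. -/
noncomputable def solutionLength {V : Type} (G : SimpleGraph V) {n : ℕ} (f g : V → Fin (n + 1)) : ℕ :=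
  sInf {t | Transforms G t f g}

/-- A cut vertex of a connected graph: deleting it disconnects the graph. -/
def IsCutVertex {V : Type} (G : SimpleGraph V) (v : V) : Prop :=
  ¬ (G.induce {w | w ≠ v}).Preconnected

/-- A path of `G` is an isthmus if each of its edges is a bridge, each of its vertices is a cut vertex,
and each of its inner vertices has degree `2` in `G`. -/
structure IsIsthmus {V : Type} (G : SimpleGraph V) {u v : V} (p : G.Walk u v) : Prop where
  isPath : p.IsPath
  bridge : ∀ e ∈ p.edges, G.IsBridge e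
  cut : ∀ w ∈ p.support, IsCutVertex G w
  inner : ∀ w ∈ p.support, w ≠ u → w ≠ v → (G.neighborSet w).ncard = 2

/-- The number of vertices of a longest isthmus of `G` (`0` if there is none). -/
noncomputable def longestIsthmus {V : Type} (G : SimpleGraph V) : ℕ :=
  sSup {d | ∃ (u v : V) (p : G.Walk u v), IsIsthmus G p ∧ p.support.length = d}

/-! ### The tree: a path `0, 1, …, 2m` with a pendant vertex `2m+1` attached to the centre `m` -/

def tee (m : ℕ) : SimpleGraph (Fin (2 * m + 2)) where
  Adj i j := (i.val + 1 = j.val ∧ j.val ≤ 2 * m) ∨ (j.val + 1 = i.val ∧ i.val ≤ 2 * m) ∨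
    (i.val = m ∧ j.val = 2 * m + 1) ∨ (j.val = m ∧ i.val = 2 * m + 1)
  symm := ⟨fun i j h => by tauto⟩
  loopless := ⟨fun i h => by omega⟩

lemma tee_adj (m : ℕ) (i j : Fin (2 * m + 2)) : (tee m).Adj i j ↔
    (i.val + 1 = j.val ∧ j.val ≤ 2 * m) ∨ (j.val + 1 = i.val ∧ i.val ≤ 2 * m) ∨
    (i.val = m ∧ j.val = 2 * m + 1) ∨ (j.val = m ∧ i.val = 2 * m + 1) := Iff.rfl

def ctr (m : ℕ) : Fin (2 * m + 2) := ⟨m, by omega⟩

lemma adj_succ (m : ℕ) (w : Fin (2 * m + 2)) (h : w.val + 1 ≤ 2 * m) :
    (tee m).Adj w ⟨w.val + 1, by omega⟩ := Or.inl ⟨rfl, h⟩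

lemma adj_pred (m : ℕ) (w : Fin (2 * m + 2)) (h0 : 0 < w.val) (h : w.val ≤ 2 * m) :
    (tee m).Adj w ⟨w.val - 1, by omega⟩ :=
  Or.inr (Or.inl ⟨(show w.val - 1 + 1 = w.val by omega), h⟩)

lemma adj_pend (m : ℕ) (w : Fin (2 * m + 2)) (h : w.val = 2 * m + 1) :
    (tee m).Adj w (ctr m) := Or.inr (Or.inr (Or.inr ⟨rfl, h⟩))

lemma reach_ctr (m : ℕ) (d : ℕ) : ∀ w : Fin (2 * m + 2), w.val ≤ 2 * m →
    ((w.val : ℤ) - m).natAbs = d → (tee m).Reachable w (ctr m) := by
  induction d with
  | zero =>
    intro w hw hd
    have : w = ctr m := by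
      apply Fin.ext; simp only [ctr]; omega
    rw [this]
  | succ d ih =>
    intro w hw hd
    by_cases hlt : w.val < m
    · have hadj : (tee m).Adj w ⟨w.val + 1, by omega⟩ := adj_succ m w (by omega)
      exact hadj.reachable.trans (ih ⟨w.val + 1, by omega⟩ (by simp only; omega) (by simp only; omega))
    · have hadj : (tee m).Adj w ⟨w.val - 1, by omega⟩ := adj_pred m w (by omega) (by omega)
      exact hadj.reachable.trans (ih ⟨w.val - 1, by omega⟩ (by simp only; omega) (by simp only; omega))

lemma tee_connected (m : ℕ) : (tee m).Connected := by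
  rw [SimpleGraph.connected_iff_exists_forall_reachable]
  refine ⟨ctr m, fun w => ?_⟩
  apply SimpleGraph.Reachable.symm
  by_cases hw : w.val ≤ 2 * m
  · exact reach_ctr m _ w hw rfl
  · have hadj : (tee m).Adj w (ctr m) := adj_pend m w (by omega)
    exact hadj.reachable

def edgeFn (m : ℕ) (i : Fin (2 * m + 1)) : Sym2 (Fin (2 * m + 2)) :=
  if h : i.val < 2 * m then s(⟨i.val, by omega⟩, ⟨i.val + 1, by omega⟩) else s(⟨m, by omega⟩, ⟨2 * m + 1, by omega⟩)

lemma edgeFn_inj (m : ℕ) : Function.Injective (edgeFn m) := by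
  intro i j hij
  unfold edgeFn at hij
  split_ifs at hij with h1 h2 h2
  · rw [Sym2.eq_iff] at hij
    simp only [Fin.mk.injEq] at hij
    apply Fin.ext; omega
  · rw [Sym2.eq_iff] at hij
    simp only [Fin.mk.injEq] at hij
    apply Fin.ext; omega
  · rw [Sym2.eq_iff] at hij
    simp only [Fin.mk.injEq] at hij
    apply Fin.ext; omega
  · apply Fin.ext; omega

lemma edgeFn_range (m : ℕ) : (tee m).edgeSet = Set.range (edgeFn m) := by
  ext e
  induction e with | h u v =>
  rw [SimpleGraph.mem_edgeSet, tee_adj, Set.mem_range]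
  constructor
  · rintro (h | h | h | h)
    · refine ⟨⟨u.val, by omega⟩, ?_⟩
      unfold edgeFn
      rw [dif_pos (by simp only; omega)]
      rw [Sym2.eq_iff]; left
      exact ⟨Fin.ext rfl, Fin.ext h.1⟩
    · refine ⟨⟨v.val, by omega⟩, ?_⟩
      unfold edgeFn
      rw [dif_pos (by simp only; omega)]
      rw [Sym2.eq_iff]; right
      exact ⟨Fin.ext rfl, Fin.ext h.1⟩
    · refine ⟨⟨2 * m, by omega⟩, ?_⟩
      unfold edgeFn
      rw [dif_neg (by simp only; omega)]
      rw [Sym2.eq_iff]; left
      exact ⟨Fin.ext h.1.symm, Fin.ext h.2.symm⟩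
    · refine ⟨⟨2 * m, by omega⟩, ?_⟩
      unfold edgeFn
      rw [dif_neg (by simp only; omega)]
      rw [Sym2.eq_iff]; right
      exact ⟨Fin.ext h.1.symm, Fin.ext h.2.symm⟩
  · rintro ⟨i, hi⟩
    unfold edgeFn at hi
    split_ifs at hi with h1
    · rw [Sym2.eq_iff] at hi
      rcases hi with ⟨rfl, rfl⟩ | ⟨rfl, rfl⟩
      · left; exact ⟨rfl, h1⟩
      · right; left; exact ⟨rfl, h1⟩
    · rw [Sym2.eq_iff] at hi
      rcases hi with ⟨rfl, rfl⟩ | ⟨rfl, rfl⟩
      · right; right; left; exact ⟨rfl, rfl⟩
      · right; right; right; exact ⟨rfl, rfl⟩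

lemma tee_isTree (m : ℕ) : (tee m).IsTree := by
  rw [SimpleGraph.isTree_iff_connected_and_card]
  refine ⟨tee_connected m, ?_⟩
  rw [edgeFn_range, Nat.card_congr (Equiv.ofInjective _ (edgeFn_inj m)).symm]
  simp

/-! ### isthmuses of the tree -/

lemma reach_ctr_avoid (m : ℕ) (x : Fin (2 * m + 2)) (hx : x.val = 0 ∨ x.val = 2 * m ∨ x.val = 2 * m + 1)
    (hm : 1 ≤ m) (d : ℕ) : ∀ (w : Fin (2 * m + 2)) (hwx : w ≠ x), w.val ≤ 2 * m →
    ((w.val : ℤ) - m).natAbs = d →
    ((tee m).induce {w | w ≠ x}).Reachable ⟨w, hwx⟩ ⟨ctr m, by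
      show ctr m ≠ x
      rw [ne_eq, Fin.ext_iff]; simp only [ctr]; omega⟩ := by
  induction d with
  | zero =>
    intro w hwx hw hd
    have : w = ctr m := by
      apply Fin.ext; simp only [ctr]; omega
    subst this
    rfl
  | succ d ih =>
    intro w hwx hw hd
    have hwx' : w.val ≠ x.val := fun h => hwx (Fin.ext h)
    by_cases hlt : w.val < m
    · have hne : (⟨w.val + 1, by omega⟩ : Fin (2 * m + 2)) ≠ x := by
        rw [ne_eq, Fin.ext_iff]; simp only; omega
      have hadj : ((tee m).induce {w | w ≠ x}).Adj ⟨w, hwx⟩ ⟨⟨w.val + 1, by omega⟩, hne⟩ := by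
        rw [SimpleGraph.comap_adj]
        exact adj_succ m w (by omega)
      exact hadj.reachable.trans (ih ⟨w.val + 1, by omega⟩ hne (by simp only; omega) (by simp only; omega))
    · have hne : (⟨w.val - 1, by omega⟩ : Fin (2 * m + 2)) ≠ x := by
        rw [ne_eq, Fin.ext_iff]; simp only; omega
      have hadj : ((tee m).induce {w | w ≠ x}).Adj ⟨w, hwx⟩ ⟨⟨w.val - 1, by omega⟩, hne⟩ := by
        rw [SimpleGraph.comap_adj]
        exact adj_pred m w (by omega) (by omega)
      exact hadj.reachable.trans (ih ⟨w.val - 1, by omega⟩ hne (by simp only; omega) (by simp only; omega))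

lemma leaf_not_cut (m : ℕ) (x : Fin (2 * m + 2)) (hx : x.val = 0 ∨ x.val = 2 * m ∨ x.val = 2 * m + 1)
    (hm : 1 ≤ m) : ¬ IsCutVertex (tee m) x := by
  intro h
  apply h
  have hc : ctr m ≠ x := by
    simp only [ne_eq, Fin.ext_iff, ctr]; omega
  have key : ∀ w : {w | w ≠ x}, ((tee m).induce {w | w ≠ x}).Reachable w ⟨ctr m, hc⟩ := by
    rintro ⟨w, hwx⟩
    by_cases hw : w.val ≤ 2 * m
    · exact reach_ctr_avoid m x hx hm _ w hwx hw rfl
    · have hadj : ((tee m).induce {w | w ≠ x}).Adj ⟨w, hwx⟩ ⟨ctr m, hc⟩ := by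
        rw [SimpleGraph.comap_adj]
        exact adj_pend m w (by omega)
      exact hadj.reachable
  intro a b
  exact (key a).trans (key b).symm

lemma ctr_nbr (m : ℕ) (hm : 1 ≤ m) : 3 ≤ ((tee m).neighborSet (ctr m)).ncard := by
  have h : ({⟨m - 1, by omega⟩, ⟨m + 1, by omega⟩, ⟨2 * m + 1, by omega⟩} : Set (Fin (2 * m + 2))) ⊆
      (tee m).neighborSet (ctr m) := by
    intro w hw
    simp only [Set.mem_insert_iff, Set.mem_singleton_iff] at hw
    rw [SimpleGraph.mem_neighborSet, tee_adj]
    rcases hw with rfl | rfl | rfl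
    · right; left; exact ⟨(show m - 1 + 1 = m by omega), (show m ≤ 2 * m by omega)⟩
    · left; exact ⟨rfl, (show m + 1 ≤ 2 * m by omega)⟩
    · right; right; left; exact ⟨rfl, rfl⟩
  have h3 : ({⟨m - 1, by omega⟩, ⟨m + 1, by omega⟩, ⟨2 * m + 1, by omega⟩} : Set (Fin (2 * m + 2))).ncard = 3 := by
    rw [Set.ncard_eq_three]
    refine ⟨_, _, _, ?_, ?_, ?_, rfl⟩ <;> simp only [ne_eq, Fin.ext_iff] <;> omega
  rw [← h3]
  exact Set.ncard_le_ncard h (Set.toFinite _)

lemma walk_side (m : ℕ) {u v : Fin (2 * m + 2)} (p : (tee m).Walk u v) :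
    p.IsPath → (∀ w ∈ p.support, w.val ≤ 2 * m) →
    (∀ w ∈ p.support, w ≠ u → w ≠ v → w.val ≠ m) →
    (∀ w ∈ p.support, w.val ≤ m) ∨ (∀ w ∈ p.support, m ≤ w.val) := by
  induction p with
  | nil =>
    intro _ _ _
    simp only [SimpleGraph.Walk.support_nil, List.mem_singleton, forall_eq]
    omega
  | @cons u u' v h q ih =>
    intro hp hle hin
    rw [SimpleGraph.Walk.cons_isPath_iff] at hp
    simp only [SimpleGraph.Walk.support_cons, List.mem_cons] at hle hin ⊢
    have hq := ih hp.1 (fun w hw => hle w (Or.inr hw)) (fun w hw h1 h2 => by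
      apply hin w (Or.inr hw) _ h2
      rintro rfl
      exact hp.2 hw)
    have hu' : u' ∈ q.support := q.start_mem_support
    have hule := hle u (Or.inl rfl)
    have hu'le := hle u' (Or.inr hu')
    have hadj := (tee_adj m u u').1 h
    have huu' : u' ≠ u := h.ne'
    by_cases hmid : u'.val = m
    · -- then u' = v and q = nil
      have hu'v : u' = v := by
        by_contra hne
        exact hin u' (Or.inr hu') huu' hne hmid
      subst hu'v
      have hqn : q = SimpleGraph.Walk.nil := by
        exact SimpleGraph.Walk.eq_nil_iff_nil.2 (SimpleGraph.Walk.isPath_iff_nil.1 hp.1)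
      subst hqn
      simp only [SimpleGraph.Walk.support_nil, List.mem_singleton]
      by_cases hum : u.val ≤ m
      · left; rintro w (rfl | rfl) <;> omega
      · right; rintro w (rfl | rfl) <;> omega
    · rcases hq with hq | hq
      · left
        rintro w (rfl | hw)
        · have := hq u' hu'; omega
        · exact hq w hw
      · right
        rintro w (rfl | hw)
        · have := hq u' hu'; omega
        · exact hq w hw

lemma longestIsthmus_tee (m : ℕ) (hm : 1 ≤ m) : longestIsthmus (tee m) ≤ m := by
  unfold longestIsthmus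
  apply csSup_le'
  rintro d ⟨u, v, p, hp, rfl⟩
  have hcut : ∀ w ∈ p.support, 1 ≤ w.val ∧ w.val ≤ 2 * m - 1 := by
    intro w hw
    have hc := hp.cut w hw
    by_contra hcon
    exact leaf_not_cut m w (by omega) hm hc
  have hin : ∀ w ∈ p.support, w ≠ u → w ≠ v → w.val ≠ m := by
    intro w hw h1 h2 h3
    have := hp.inner w hw h1 h2
    have hwc : w = ctr m := Fin.ext h3
    rw [hwc] at this
    have := ctr_nbr m hm
    omega
  have hside := walk_side m p hp.isPath (fun w hw => by have := hcut w hw; omega) hin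
  have hnd : (p.support.map (fun w => w.val)).Nodup := by
    apply List.Nodup.map Fin.val_injective
    exact hp.isPath.support_nodup
  have hlen : p.support.length = (p.support.map (fun w => w.val)).toFinset.card := by
    rw [List.toFinset_card_of_nodup hnd, List.length_map]
  rw [hlen]
  rcases hside with hs | hs
  · calc _ ≤ (Finset.Icc 1 m).card := by
          apply Finset.card_le_card
          intro x hx
          simp only [List.mem_toFinset, List.mem_map] at hx
          obtain ⟨w, hw, rfl⟩ := hx
          have := hs w hw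
          have := hcut w hw
          rw [Finset.mem_Icc]; omega
      _ = m := by simp
  · calc _ ≤ (Finset.Icc m (2 * m - 1)).card := by
          apply Finset.card_le_card
          intro x hx
          simp only [List.mem_toFinset, List.mem_map] at hx
          obtain ⟨w, hw, rfl⟩ := hx
          have := hs w hw
          have := hcut w hw
          rw [Finset.mem_Icc]; omega
      _ ≤ m := by simp only [Nat.card_Icc]; omega


section Core

/-- distance from the centre clamped to the window `[g, 2g]` -/
def clampDist (g : ℕ) (x : ℤ) : ℕ := min (x.natAbs - g) g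

variable {n : ℕ} (X : ℕ → Fin n → ℤ) (mv : ℕ → Fin n)

/-- level of the step `s`: the smaller of the two distances from the centre. -/
def lev (s : ℕ) : ℕ := min (X s (mv s)).natAbs (X (s+1) (mv s)).natAbs

def sc (g a b : ℕ) : ℕ := ((Finset.Ico a b).filter (fun s => g ≤ lev X mv s ∧ lev X mv s < 2*g)).card

def cnt (g : ℕ) (i : Fin n) (a b : ℕ) : ℕ :=
  ((Finset.Ico a b).filter (fun s => mv s = i ∧ (g ≤ lev X mv s ∧ lev X mv s < 2*g))).card

lemma cnt_succ (g : ℕ) (i : Fin n) (a b : ℕ) (h : a ≤ b) :
    cnt X mv g i a (b+1) = cnt X mv g i a b +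
      (if mv b = i ∧ (g ≤ lev X mv b ∧ lev X mv b < 2*g) then 1 else 0) := by
  unfold cnt
  rw [Nat.Ico_succ_right_eq_insert_Ico h, Finset.filter_insert]
  split_ifs with h1
  · rw [Finset.card_insert_of_notMem]
    simp
  · rfl

lemma sc_add (g a b c : ℕ) (h1 : a ≤ b) (h2 : b ≤ c) :
    sc X mv g a b + sc X mv g b c = sc X mv g a c := by
  unfold sc
  rw [← Finset.Ico_union_Ico_eq_Ico h1 h2, Finset.filter_union, Finset.card_union_of_disjoint]
  exact Finset.disjoint_filter_filter (Finset.Ico_disjoint_Ico_consecutive a b c)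

lemma cnt_mono (g : ℕ) (i : Fin n) (a b c : ℕ) (h : b ≤ c) :
    cnt X mv g i a b ≤ cnt X mv g i a c := by
  unfold cnt
  apply Finset.card_le_card
  apply Finset.filter_subset_filter
  exact Finset.Ico_subset_Ico_right h

variable (T : ℕ)
  (h1 : ∀ s < T, ∀ j, j ≠ mv s → X (s+1) j = X s j)
  (h2 : ∀ s < T, (X (s+1) (mv s) - X s (mv s)).natAbs ≤ 1)

include h1 h2 in
lemma clamp_le (g : ℕ) (i : Fin n) (a b : ℕ) (hab : a ≤ b) (hbT : b ≤ T) :
    clampDist g (X a i) ≤ clampDist g (X b i) + cnt X mv g i a b := by
  induction b, hab using Nat.le_induction with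
  | base => omega
  | succ b hb ih =>
    have ih' := ih (by omega)
    rw [cnt_succ _ _ _ _ _ _ hb]
    have key : clampDist g (X b i) ≤ clampDist g (X (b+1) i) +
        (if mv b = i ∧ (g ≤ lev X mv b ∧ lev X mv b < 2*g) then 1 else 0) := by
      by_cases hi : mv b = i
      · subst hi
        have := h2 b (by omega)
        unfold clampDist lev
        simp only [true_and]
        split_ifs with hc <;> omega
      · rw [h1 b (by omega) i (fun h => hi h.symm)]
        omega
    omega

lemma sum_cnt (g a b : ℕ) : ∑ i, cnt X mv g i a b = sc X mv g a b := by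
  unfold sc cnt
  rw [Finset.card_eq_sum_card_fiberwise (f := mv) (t := Finset.univ) (fun _ _ => Finset.mem_coe.2 (Finset.mem_univ _))]
  apply Finset.sum_congr rfl
  intro i _
  congr 1
  ext s
  simp only [Finset.mem_filter, Finset.mem_Ico]
  tauto

lemma many_cnt (g a b : ℕ) (R : Finset (Fin n)) (hR : ∀ i ∈ R, g ≤ cnt X mv g i a b) :
    R.card * g ≤ sc X mv g a b := by
  rw [← sum_cnt]
  calc R.card * g = ∑ i ∈ R, g := by simp
    _ ≤ ∑ i ∈ R, cnt X mv g i a b := Finset.sum_le_sum hR
    _ ≤ ∑ i, cnt X mv g i a b := Finset.sum_le_sum_of_subset (Finset.subset_univ _)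

variable (hocc : ∀ s ≤ T, ∀ r, (Finset.univ.filter (fun i => (X s i).natAbs < r)).card ≤ 2 * r)

open scoped Classical in
/-- pebbles that visit the centre during epoch `e` -/
noncomputable def epochSet (g e : ℕ) : Finset (Fin n) :=
  Finset.univ.filter (fun i => ∃ s ≤ T, sc X mv g 0 s / g^2 = e ∧ X s i = 0)

include h1 h2 hocc in
lemma epoch_card (g e : ℕ) (hg : 1 ≤ g) : (epochSet X mv T g e).card ≤ 5 * g := by
  classical
  by_cases hex : ∃ s, s ≤ T ∧ sc X mv g 0 s / g^2 = e
  · obtain ⟨a, ⟨haT, hae⟩, hamin⟩ : ∃ a, (a ≤ T ∧ sc X mv g 0 a / g^2 = e) ∧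
        ∀ s, s ≤ T ∧ sc X mv g 0 s / g^2 = e → a ≤ s :=
      ⟨Nat.find hex, Nat.find_spec hex, fun s hs => Nat.find_min' hex hs⟩
    obtain ⟨b, ⟨hbT, hbe⟩, hbmax⟩ : ∃ b, (b ≤ T ∧ sc X mv g 0 b / g^2 = e) ∧
        ∀ s, s ≤ T ∧ sc X mv g 0 s / g^2 = e → s ≤ b := by
      refine ⟨Nat.findGreatest (fun s => sc X mv g 0 s / g^2 = e) T, ⟨Nat.findGreatest_le _, ?_⟩, ?_⟩
      · exact Nat.findGreatest_spec (P := fun s => sc X mv g 0 s / g^2 = e) haT hae
      · intro s hs
        exact Nat.le_findGreatest hs.1 hs.2
    have hab : a ≤ b := hamin b ⟨hbT, hbe⟩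
    have hsub : epochSet X mv T g e ⊆
        (Finset.univ.filter (fun i => (X a i).natAbs < 2*g)) ∪
        (Finset.univ.filter (fun i => g ≤ cnt X mv g i a b)) := by
      intro i hi
      unfold epochSet at hi
      simp only [Finset.mem_filter, Finset.mem_univ, true_and] at hi
      obtain ⟨s, hsT, hse, hs0⟩ := hi
      simp only [Finset.mem_union, Finset.mem_filter, Finset.mem_univ, true_and]
      by_cases hfar : (X a i).natAbs < 2*g
      · left; exact hfar
      · right
        have has : a ≤ s := hamin s ⟨hsT, hse⟩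
        have hsb : s ≤ b := hbmax s ⟨hsT, hse⟩
        have h3 := clamp_le X mv T h1 h2 g i a s has hsT
        have h4 := cnt_mono X mv g i a s b hsb
        rw [hs0] at h3
        unfold clampDist at h3
        simp only [Int.natAbs_zero] at h3
        omega
    have hfirst := hocc a haT (2*g)
    have hsecond := many_cnt X mv g a b (Finset.univ.filter (fun i => g ≤ cnt X mv g i a b))
      (by intro i hi; simpa using hi)
    have hsc := sc_add X mv g 0 a b (Nat.zero_le _) hab
    have hlt : sc X mv g a b < g^2 := by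
      have hg2 : 0 < g^2 := by positivity
      have e1 := Nat.div_add_mod (sc X mv g 0 a) (g^2)
      have e2 := Nat.div_add_mod (sc X mv g 0 b) (g^2)
      have e3 := Nat.mod_lt (sc X mv g 0 b) hg2
      rw [hae] at e1
      rw [hbe] at e2
      generalize sc X mv g 0 a % g^2 = pa at e1
      generalize sc X mv g 0 b % g^2 = pb at e2 e3
      omega
    have hcard : (Finset.univ.filter (fun i => g ≤ cnt X mv g i a b)).card < g := by
      have : (Finset.univ.filter (fun i => g ≤ cnt X mv g i a b)).card * g < g * g := by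
        calc _ ≤ sc X mv g a b := hsecond
          _ < g^2 := hlt
          _ = g * g := by ring
      exact lt_of_mul_lt_mul_right this (Nat.zero_le _)
    calc (epochSet X mv T g e).card ≤ _ := Finset.card_le_card hsub
      _ ≤ _ := Finset.card_union_le _ _
      _ ≤ 5 * g := by omega
  · have : epochSet X mv T g e = ∅ := by
      unfold epochSet
      rw [Finset.filter_eq_empty_iff]
      rintro i - ⟨s, hs, hse, -⟩
      exact hex ⟨s, hs, hse⟩
    rw [this]; simp

variable (hmeet : ∀ i j, i ≠ j → ∃ s ≤ T, X s i = 0 ∧ X s j = 0)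

include h1 h2 hocc hmeet in
lemma scale_bound (g : ℕ) (hg : 1 ≤ g) :
    n * n - n ≤ 25 * sc X mv g 0 T + 25 * g^2 := by
  classical
  choose! τ hτ using hmeet
  have hoff : ((Finset.univ : Finset (Fin n)).offDiag).card = n * n - n := by
    rw [Finset.offDiag_card]; simp
  set F : Fin n × Fin n → ℕ := fun q => sc X mv g 0 (τ q.1 q.2) / g^2 with hF
  have hfib := Finset.card_le_mul_card_image (f := F) ((Finset.univ : Finset (Fin n)).offDiag)
    (25 * g^2) (by
      intro e he
      have hsub : ((Finset.univ : Finset (Fin n)).offDiag).filter (fun q => F q = e) ⊆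
          (epochSet X mv T g e) ×ˢ (epochSet X mv T g e) := by
        intro q hq
        simp only [Finset.mem_filter, Finset.mem_offDiag, Finset.mem_univ, true_and] at hq
        obtain ⟨hne, hqe⟩ := hq
        obtain ⟨t1, t2, t3⟩ := hτ q.1 q.2 hne
        simp only [Finset.mem_product, epochSet, Finset.mem_filter, Finset.mem_univ, true_and]
        exact ⟨⟨_, t1, hqe, t2⟩, ⟨_, t1, hqe, t3⟩⟩
      calc _ ≤ _ := Finset.card_le_card hsub
        _ = (epochSet X mv T g e).card * (epochSet X mv T g e).card := Finset.card_product _ _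
        _ ≤ (5 * g) * (5 * g) := Nat.mul_le_mul (epoch_card X mv T h1 h2 hocc g e hg)
            (epoch_card X mv T h1 h2 hocc g e hg)
        _ = 25 * g^2 := by ring)
  have himg : (((Finset.univ : Finset (Fin n)).offDiag).image F).card ≤ sc X mv g 0 T / g^2 + 1 := by
    have : ((Finset.univ : Finset (Fin n)).offDiag).image F ⊆ Finset.range (sc X mv g 0 T / g^2 + 1) := by
      intro e he
      simp only [Finset.mem_image, Finset.mem_offDiag, Finset.mem_univ, true_and] at he
      obtain ⟨q, hne, rfl⟩ := he
      obtain ⟨t1, t2, t3⟩ := hτ q.1 q.2 hne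
      simp only [Finset.mem_range, hF]
      apply Nat.lt_succ_of_le
      apply Nat.div_le_div_right
      have := sc_add X mv g 0 (τ q.1 q.2) T (Nat.zero_le _) t1
      omega
    calc _ ≤ _ := Finset.card_le_card this
      _ = _ := Finset.card_range _
  rw [hoff] at hfib
  calc n * n - n ≤ 25 * g^2 * (((Finset.univ : Finset (Fin n)).offDiag).image F).card := hfib
    _ ≤ 25 * g^2 * (sc X mv g 0 T / g^2 + 1) := Nat.mul_le_mul_left _ himg
    _ = 25 * (g^2 * (sc X mv g 0 T / g^2)) + 25 * g^2 := by ring
    _ ≤ 25 * sc X mv g 0 T + 25 * g^2 := by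
        have := Nat.mul_div_le (sc X mv g 0 T) (g^2)
        omega

lemma sum_scales (J : ℕ) : ∑ j ∈ Finset.range J, sc X mv (2^j) 0 T ≤ T := by
  classical
  unfold sc
  simp_rw [Finset.card_filter]
  rw [Finset.sum_comm]
  calc _ ≤ ∑ s ∈ Finset.Ico 0 T, 1 := by
        apply Finset.sum_le_sum
        intro s _
        rw [← Finset.card_filter]
        apply Finset.card_le_one.2
        intro a ha b hb
        simp only [Finset.mem_filter, Finset.mem_range] at ha hb
        have l1 : (2:ℕ)^a < 2^(b+1) := by
          calc 2^a ≤ _ := ha.2.1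
            _ < 2 * 2^b := hb.2.2
            _ = 2^(b+1) := by ring
        have l2 : (2:ℕ)^b < 2^(a+1) := by
          calc 2^b ≤ _ := hb.2.1
            _ < 2 * 2^a := ha.2.2
            _ = 2^(a+1) := by ring
        have m1 := (Nat.pow_lt_pow_iff_right (by norm_num : 1 < 2)).1 l1
        have m2 := (Nat.pow_lt_pow_iff_right (by norm_num : 1 < 2)).1 l2
        omega
    _ = T := by simp

include h1 h2 hocc hmeet in
lemma core_bound (J : ℕ) : J * (n * n - n) ≤ 25 * T + 25 * ∑ j ∈ Finset.range J, 4^j := by
  have hs : ∑ j ∈ Finset.range J, (n * n - n) ≤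
      ∑ j ∈ Finset.range J, (25 * sc X mv (2^j) 0 T + 25 * (2^j)^2) := by
    apply Finset.sum_le_sum
    intro j _
    exact scale_bound X mv T h1 h2 hocc hmeet (2^j) (Nat.one_le_two_pow)
  rw [Finset.sum_const, Finset.card_range, smul_eq_mul, Finset.sum_add_distrib,
    ← Finset.mul_sum, ← Finset.mul_sum] at hs
  have h3 := sum_scales X mv T J
  have h4 : ∑ j ∈ Finset.range J, ((2:ℕ)^j)^2 = ∑ j ∈ Finset.range J, 4^j := by
    apply Finset.sum_congr rfl
    intro j _
    rw [← pow_mul, mul_comm, pow_mul]; norm_num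
  rw [h4] at hs
  omega

end Core


/-! ### configurations given by positions -/

section Positions

variable {V : Type} {n : ℕ}

open scoped Classical in
/-- the configuration in which pebble `i + 1` lies on `P i` -/
noncomputable def cfg (P : Fin n → V) : V → Fin (n + 1) :=
  fun v => if h : ∃ i, P i = v then (Classical.choose h).succ else 0

lemma cfg_apply {P : Fin n → V} (hP : Function.Injective P) (i : Fin n) : cfg P (P i) = i.succ := by
  unfold cfg
  have h : ∃ j, P j = P i := ⟨i, rfl⟩
  rw [dif_pos h]
  have := Classical.choose_spec h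
  rw [hP this]

lemma cfg_zero {P : Fin n → V} {v : V} (hv : ∀ i, P i ≠ v) : cfg P v = 0 := by
  unfold cfg
  rw [dif_neg]
  rintro ⟨i, hi⟩
  exact hv i hi

lemma cfg_isConfig {P : Fin n → V} (hP : Function.Injective P) : IsConfig (cfg P) := by
  intro i hi
  obtain ⟨j, rfl⟩ := Fin.exists_succ_eq.2 hi
  refine ⟨P j, cfg_apply hP j, ?_⟩
  intro v hv
  by_cases h : ∃ k, P k = v
  · obtain ⟨k, rfl⟩ := h
    rw [cfg_apply hP] at hv
    rw [Fin.succ_injective _ hv]
  · push Not at h
    simp only [cfg_zero h] at hv
    exact absurd hv.symm (Fin.succ_ne_zero j)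

lemma update_injective {P : Fin n → V} (hP : Function.Injective P) (i : Fin n) (w : V)
    (hw : ∀ j, P j ≠ w) : Function.Injective (Function.update P i w) := by
  intro a b hab
  by_cases ha : a = i <;> by_cases hb : b = i
  · rw [ha, hb]
  · subst ha
    rw [Function.update_self, Function.update_of_ne hb] at hab
    exact absurd hab.symm (hw b)
  · subst hb
    rw [Function.update_self, Function.update_of_ne ha] at hab
    exact absurd hab (hw a)
  · rw [Function.update_of_ne ha, Function.update_of_ne hb] at hab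
    exact hP hab

lemma cfg_move (G : SimpleGraph V) {P : Fin n → V} (hP : Function.Injective P) (i : Fin n) (w : V)
    (hw : ∀ j, P j ≠ w) (hadj : G.Adj (P i) w) : Move G (cfg P) (cfg (Function.update P i w)) := by
  have hinj := update_injective hP i w hw
  refine ⟨P i, w, hadj, ?_, cfg_zero hw, ?_, ?_, ?_⟩
  · rw [cfg_apply hP]; exact Fin.succ_ne_zero i
  · apply cfg_zero
    intro j
    by_cases hj : j = i
    · subst hj; rw [Function.update_self]; exact (hw j).symm
    · rw [Function.update_of_ne hj]; exact fun h => hj (hP h)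
  · have := cfg_apply hinj i
    rw [Function.update_self] at this
    rw [this, cfg_apply hP]
  · intro x hx1 hx2
    by_cases h : ∃ k, P k = x
    · obtain ⟨k, rfl⟩ := h
      have hk : k ≠ i := fun h => hx1 (by rw [h])
      have := cfg_apply hinj k
      rw [Function.update_of_ne hk] at this
      rw [this, cfg_apply hP]
    · push Not at h
      rw [cfg_zero h]
      apply cfg_zero
      intro j
      by_cases hj : j = i
      · subst hj; rw [Function.update_self]; exact hx2.symm
      · rw [Function.update_of_ne hj]; exact h j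

lemma move_symm (G : SimpleGraph V) {f f' : V → Fin (n + 1)} (h : Move G f f') : Move G f' f := by
  obtain ⟨u, v, h1, h2, h3, h4, h5, h6⟩ := h
  refine ⟨v, u, h1.symm, ?_, h4, h3, h5.symm, ?_⟩
  · rw [h5]; exact h2
  · intro w hw1 hw2
    exact (h6 w hw2 hw1).symm

lemma transforms_of_reflTransGen (G : SimpleGraph V) {f g : V → Fin (n + 1)}
    (h : Relation.ReflTransGen (Move G) f g) : ∃ t, Transforms G t f g := by
  induction h with
  | refl => exact ⟨0, fun _ => f, rfl, rfl, fun s hs => absurd hs (Nat.not_lt_zero s)⟩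
  | @tail b c _ hbc ih =>
    obtain ⟨t, σ, h0, ht, hs⟩ := ih
    refine ⟨t + 1, fun s => if s ≤ t then σ s else c, ?_, ?_, ?_⟩
    · simp only [Nat.zero_le, if_true]; exact h0
    · show (if t + 1 ≤ t then σ (t + 1) else c) = c
      rw [if_neg (by omega)]
    · intro s hst
      show Move G (if s ≤ t then σ s else c) (if s + 1 ≤ t then σ (s + 1) else c)
      by_cases hlt : s < t
      · rw [if_pos (show s ≤ t by omega), if_pos (show s + 1 ≤ t by omega)]
        exact hs s hlt
      · have : s = t := by omega
        subst this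
        rw [if_pos (le_refl s), if_neg (show ¬ (s + 1 ≤ s) by omega), ht]
        exact hbc

end Positions

/-! ### all orders are reachable -/

section Reach

variable {m n : ℕ}

/-- line placement of the pebbles: pebble `i` has rank `σ i` and lies on vertex `y (σ i)` -/
def place (m : ℕ) (y : Fin n → ℕ) (hy : ∀ r, y r ≤ 2 * m) (σ : Equiv.Perm (Fin n)) :
    Fin n → Fin (2 * m + 2) := fun i => ⟨y (σ i), by have := hy (σ i); omega⟩

lemma place_inj (y : Fin n → ℕ) (hy : ∀ r, y r ≤ 2 * m) (hmono : StrictMono y)
    (σ : Equiv.Perm (Fin n)) : Function.Injective (place m y hy σ) := by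
  intro a b hab
  simp only [place, Fin.mk.injEq] at hab
  exact σ.injective (hmono.injective hab)

abbrev R (m : ℕ) {n : ℕ} (f g : Fin (2 * m + 2) → Fin (n + 1)) : Prop :=
  Relation.ReflTransGen (Move (tee m)) f g

lemma R_symm {f g : Fin (2 * m + 2) → Fin (n + 1)} (h : R m f g) : R m g f := by
  induction h with
  | refl => exact Relation.ReflTransGen.refl
  | tail _ hbc ih => exact Relation.ReflTransGen.head (move_symm _ hbc) ih

/-- canonical placement at the right end -/
lemma slide (σ : Equiv.Perm (Fin n)) (K : ℕ) : ∀ (y : Fin n → ℕ) (hy : ∀ r, y r ≤ 2 * m),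
    StrictMono y → ∑ r, (2 * m - y r) = K →
    ∃ (z : Fin n → ℕ) (hz : ∀ r, z r ≤ 2 * m), (∀ r : Fin n, z r + (n - 1 - r.val) = 2 * m) ∧
      R m (cfg (place m y hy σ)) (cfg (place m z hz σ)) := by
  induction K using Nat.strong_induction_on with
  | _ K ih =>
    intro y hy hmono hK
    by_cases hex : ∃ r : Fin n, y r < 2 * m ∧ ∀ r' : Fin n, y r' ≠ y r + 1
    · obtain ⟨r, hr1, hr2⟩ := hex
      have hy' : ∀ r', (Function.update y r (y r + 1)) r' ≤ 2 * m := by
        intro r'
        by_cases h : r' = r
        · subst h; rw [Function.update_self]; omega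
        · rw [Function.update_of_ne h]; exact hy r'
      have hmono' : StrictMono (Function.update y r (y r + 1)) := by
        intro a b hab
        have hab' := hmono hab
        by_cases ha : a = r <;> by_cases hb : b = r
        · subst ha; subst hb; exact absurd hab (lt_irrefl _)
        · subst ha
          rw [Function.update_self, Function.update_of_ne hb]
          have := hr2 b; omega
        · subst hb
          rw [Function.update_self, Function.update_of_ne ha]; omega
        · rw [Function.update_of_ne ha, Function.update_of_ne hb]; exact hab'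
      have hlt : ∑ r', (2 * m - (Function.update y r (y r + 1)) r') < K := by
        rw [← hK]
        apply Finset.sum_lt_sum
        · intro i _
          by_cases h : i = r
          · subst h; rw [Function.update_self]; omega
          · rw [Function.update_of_ne h]
        · refine ⟨r, Finset.mem_univ _, ?_⟩
          rw [Function.update_self]; omega
      obtain ⟨z, hz, hz1, hz2⟩ := ih _ hlt _ hy' hmono' rfl
      refine ⟨z, hz, hz1, Relation.ReflTransGen.head ?_ hz2⟩
      have hpl : place m (Function.update y r (y r + 1)) hy' σ =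
          Function.update (place m y hy σ) (σ.symm r) ⟨y r + 1, by omega⟩ := by
        funext i
        by_cases h : i = σ.symm r
        · subst h
          rw [Function.update_self]
          apply Fin.ext
          simp only [place, Equiv.apply_symm_apply, Function.update_self]
        · rw [Function.update_of_ne h]
          apply Fin.ext
          have : σ i ≠ r := fun h' => h (by rw [← h', Equiv.symm_apply_apply])
          simp only [place, Function.update_of_ne this]
      rw [hpl]
      apply cfg_move _ (place_inj y hy hmono σ)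
      · intro j hj
        simp only [place, Fin.mk.injEq] at hj
        exact hr2 _ hj
      · rw [tee_adj]; left
        have : (place m y hy σ (σ.symm r)).val = y r := by simp only [place, Equiv.apply_symm_apply]
        rw [this]
        exact ⟨rfl, (show y r + 1 ≤ 2 * m by omega)⟩
    · push Not at hex
      refine ⟨y, hy, ?_, Relation.ReflTransGen.refl⟩
      -- reverse induction
      have key : ∀ d : ℕ, ∀ r : Fin n, n - 1 - r.val = d → y r + (n - 1 - r.val) = 2 * m := by
        intro d
        induction d with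
        | zero =>
          intro r hr
          have hlt : ¬ y r < 2 * m := by
            intro hlt
            obtain ⟨r', hr'⟩ := hex r hlt
            have : r < r' := by
              apply hmono.lt_iff_lt.1; omega
            have := r'.isLt
            omega
          have := hy r
          omega
        | succ d ihd =>
          intro r hr
          have hr1 : r.val + 1 < n := by omega
          have hnext := ihd ⟨r.val + 1, hr1⟩ (by simp only; omega)
          simp only at hnext
          have hlt1 : y r < y ⟨r.val + 1, hr1⟩ := hmono (by rw [Fin.lt_def]; simp only; omega)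
          have hlt : y r < 2 * m := by have := hy ⟨r.val + 1, hr1⟩; omega
          obtain ⟨r', hr'⟩ := hex r hlt
          have h1 : r < r' := by
            apply hmono.lt_iff_lt.1; omega
          have h2 : y r' = y ⟨r.val + 1, hr1⟩ := by
            apply le_antisymm
            · omega
            · apply hmono.monotone
              rw [Fin.le_def]; simp only; rw [Fin.lt_def] at h1; omega
          omega
      intro r
      exact key _ r rfl

lemma place_conn (σ : Equiv.Perm (Fin n)) (y : Fin n → ℕ) (hy : ∀ r, y r ≤ 2 * m) (hmono : StrictMono y)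
    (y' : Fin n → ℕ) (hy' : ∀ r, y' r ≤ 2 * m) (hmono' : StrictMono y') :
    R m (cfg (place m y hy σ)) (cfg (place m y' hy' σ)) := by
  obtain ⟨z, hz, hz1, hz2⟩ := slide (m := m) σ _ y hy hmono rfl
  obtain ⟨z', hz', hz1', hz2'⟩ := slide (m := m) σ _ y' hy' hmono' rfl
  have : z = z' := by
    funext r
    have := hz1 r; have := hz1' r; omega
  subst this
  exact hz2.trans (R_symm hz2')

lemma swap_step (hmn : n ≤ m) (σ : Equiv.Perm (Fin n)) (k : ℕ) (hk : k + 1 < n)
    (y : Fin n → ℕ) (hy : ∀ r, y r ≤ 2 * m) (hmono : StrictMono y) :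
    R m (cfg (place m y hy σ))
      (cfg (place m y hy (Equiv.swap ⟨k, by omega⟩ ⟨k + 1, hk⟩ * σ))) := by
  set a : Fin n := ⟨k, by omega⟩ with ha
  set b : Fin n := ⟨k + 1, hk⟩ with hb
  have hab : a ≠ b := by rw [ha, hb, ne_eq, Fin.mk.injEq]; omega
  set y1 : Fin n → ℕ := fun r => if r.val < k then m + r.val - k - 1 else m + r.val - k with hy1
  have hy1le : ∀ r, y1 r ≤ 2 * m := by
    intro r; simp only [hy1]; have := r.isLt; split_ifs <;> omega
  have hy1mono : StrictMono y1 := by
    intro r s hrs
    rw [Fin.lt_def] at hrs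
    simp only [hy1]
    have := r.isLt; have := s.isLt
    split_ifs <;> omega
  set y2 : Fin n → ℕ := fun r => if r.val < k + 2 then m + r.val - k - 1 else m + r.val - k with hy2
  have hy2le : ∀ r, y2 r ≤ 2 * m := by
    intro r; simp only [hy2]; have := r.isLt; split_ifs <;> omega
  have hy2mono : StrictMono y2 := by
    intro r s hrs
    rw [Fin.lt_def] at hrs
    simp only [hy2]
    have := r.isLt; have := s.isLt
    split_ifs <;> omega
  refine (place_conn σ y hy hmono y1 hy1le hy1mono).trans ?_
  refine Relation.ReflTransGen.trans ?_ (place_conn (Equiv.swap a b * σ) y2 hy2le hy2mono y hy hmono)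
  -- the four moves
  set u : Fin n := σ.symm a with hu
  set v : Fin n := σ.symm b with hv
  have huv : u ≠ v := fun h => hab (σ.symm.injective h)
  have hσu : σ u = a := by rw [hu, Equiv.apply_symm_apply]
  have hσv : σ v = b := by rw [hv, Equiv.apply_symm_apply]
  have hoth : ∀ j, j ≠ u → j ≠ v → (σ j).val ≠ k ∧ (σ j).val ≠ k + 1 := by
    intro j h1 h2
    constructor
    · intro h
      apply h1
      rw [hu, Equiv.eq_symm_apply]; apply Fin.ext; rw [h]
    · intro h
      apply h2
      rw [hv, Equiv.eq_symm_apply]; apply Fin.ext; rw [h]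
  set P0 := place m y1 hy1le σ with hP0
  have hP0inj : Function.Injective P0 := place_inj y1 hy1le hy1mono σ
  have hP0u : (P0 u).val = m := by
    simp only [hP0, place, hσu, hy1, ha]
    rw [if_neg (by omega)]; omega
  have hP0v : (P0 v).val = m + 1 := by
    simp only [hP0, place, hσv, hy1, hb]
    rw [if_neg (by omega)]; omega
  have hP0le : ∀ j, (P0 j).val ≤ 2 * m := fun j => hy1le _
  have hP0o : ∀ j, j ≠ u → j ≠ v → (P0 j).val ≠ m ∧ (P0 j).val ≠ m + 1 ∧ (P0 j).val ≠ m - 1 := by
    intro j h1 h2
    have := hoth j h1 h2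
    have h3 := (σ j).isLt
    simp only [hP0, place, hy1]
    split_ifs <;> omega
  -- vertices
  set w0 : Fin (2 * m + 2) := ⟨2 * m + 1, by omega⟩ with hw0
  set w1 : Fin (2 * m + 2) := ⟨m, by omega⟩ with hw1
  set w2 : Fin (2 * m + 2) := ⟨m - 1, by omega⟩ with hw2
  set P1 := Function.update P0 u w0 with hP1
  set P2 := Function.update P1 v w1 with hP2
  set P3 := Function.update P2 v w2 with hP3
  set P4 := Function.update P3 u w1 with hP4
  have n1 : ∀ j, P0 j ≠ w0 := by
    intro j h
    have := congrArg Fin.val h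
    have := hP0le j
    simp only [hw0] at *
    omega
  have hP1inj : Function.Injective P1 := update_injective hP0inj u w0 n1
  have n2 : ∀ j, P1 j ≠ w1 := by
    intro j h
    have h' := congrArg Fin.val h
    by_cases hj : j = u
    · subst hj
      rw [hP1, Function.update_self] at h'
      simp only [hw0, hw1] at h'; omega
    · rw [hP1, Function.update_of_ne hj] at h'
      by_cases hjv : j = v
      · rw [hjv, hP0v] at h'; simp only [hw1] at h'; omega
      · have := hP0o j hj hjv
        simp only [hw1] at h'; omega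
  have hP2inj : Function.Injective P2 := update_injective hP1inj v w1 n2
  have n3 : ∀ j, P2 j ≠ w2 := by
    intro j h
    have h' := congrArg Fin.val h
    by_cases hjv : j = v
    · subst hjv
      rw [hP2, Function.update_self] at h'
      simp only [hw1, hw2] at h'; omega
    · rw [hP2, Function.update_of_ne hjv] at h'
      by_cases hj : j = u
      · subst hj
        rw [hP1, Function.update_self] at h'
        simp only [hw0, hw2] at h'; omega
      · rw [hP1, Function.update_of_ne hj] at h'
        have := hP0o j hj hjv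
        simp only [hw2] at h'; omega
  have hP3inj : Function.Injective P3 := update_injective hP2inj v w2 n3
  have n4 : ∀ j, P3 j ≠ w1 := by
    intro j h
    have h' := congrArg Fin.val h
    by_cases hjv : j = v
    · subst hjv
      rw [hP3, Function.update_self] at h'
      simp only [hw1, hw2] at h'; omega
    · rw [hP3, Function.update_of_ne hjv, hP2, Function.update_of_ne hjv] at h'
      by_cases hj : j = u
      · subst hj
        rw [hP1, Function.update_self] at h'
        simp only [hw0, hw1] at h'; omega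
      · rw [hP1, Function.update_of_ne hj] at h'
        have := hP0o j hj hjv
        simp only [hw1] at h'; omega
  have m1 : Move (tee m) (cfg P0) (cfg P1) := by
    apply cfg_move _ hP0inj u w0 n1
    rw [tee_adj, hP0u]
    right; right; left; exact ⟨rfl, rfl⟩
  have m2 : Move (tee m) (cfg P1) (cfg P2) := by
    apply cfg_move _ hP1inj v w1 n2
    rw [hP1, Function.update_of_ne huv.symm, tee_adj, hP0v]
    right; left; exact ⟨rfl, by omega⟩
  have m3 : Move (tee m) (cfg P2) (cfg P3) := by
    apply cfg_move _ hP2inj v w2 n3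
    rw [hP2, Function.update_self, tee_adj]
    right; left; exact ⟨(show m - 1 + 1 = m by omega), (show m ≤ 2 * m by omega)⟩
  have m4 : Move (tee m) (cfg P3) (cfg P4) := by
    apply cfg_move _ hP3inj u w1 n4
    rw [hP3, Function.update_of_ne huv, hP2, Function.update_of_ne huv, hP1, Function.update_self, tee_adj]
    right; right; right; exact ⟨rfl, rfl⟩
  have hfin : P4 = place m y2 hy2le (Equiv.swap a b * σ) := by
    funext j
    apply Fin.ext
    by_cases hj : j = u
    · subst hj
      rw [hP4, Function.update_self]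
      simp only [place, Equiv.Perm.coe_mul, Function.comp_apply, hσu, Equiv.swap_apply_left, hy2, hb, hw1]
      rw [if_pos (by omega)]; omega
    · rw [hP4, Function.update_of_ne hj]
      by_cases hjv : j = v
      · subst hjv
        rw [hP3, Function.update_self]
        simp only [place, Equiv.Perm.coe_mul, Function.comp_apply, hσv, Equiv.swap_apply_right, hy2, ha, hw2]
        rw [if_pos (by omega)]; omega
      · rw [hP3, Function.update_of_ne hjv, hP2, Function.update_of_ne hjv, hP1, Function.update_of_ne hj]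
        have h1 : σ j ≠ a := fun h => hj (by rw [hu, Equiv.eq_symm_apply]; exact h)
        have h2 : σ j ≠ b := fun h => hjv (by rw [hv, Equiv.eq_symm_apply]; exact h)
        have h3 := hoth j hj hjv
        have h4 := (σ j).isLt
        simp only [place, Equiv.Perm.coe_mul, Function.comp_apply, Equiv.swap_apply_of_ne_of_ne h1 h2, hP0, hy1, hy2]
        split_ifs <;> omega
  rw [← hfin]
  exact (((Relation.ReflTransGen.single m1).tail m2).tail m3).tail m4

lemma all_conn {n' : ℕ} (hmn : n' + 1 ≤ m) (y : Fin (n' + 1) → ℕ) (hy : ∀ r, y r ≤ 2 * m)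
    (hmono : StrictMono y) (ρ σ : Equiv.Perm (Fin (n' + 1))) :
    R m (cfg (place m y hy σ)) (cfg (place m y hy (ρ * σ))) := by
  have hρ : ρ ∈ Submonoid.closure (Set.range fun i : Fin n' => Equiv.swap i.castSucc i.succ) := by
    rw [Equiv.Perm.mclosure_swap_castSucc_succ]; exact Submonoid.mem_top _
  induction hρ using Submonoid.closure_induction generalizing σ with
  | mem x hx =>
    obtain ⟨i, rfl⟩ := hx
    exact swap_step hmn σ i.val (by have := i.isLt; omega) y hy hmono
  | one => rw [one_mul]
  | mul x z _ _ hx hz =>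
    rw [mul_assoc]
    exact (hz σ).trans (hx (z * σ))

lemma all_conn' {n : ℕ} (hn : 0 < n) (hmn : n ≤ m) (y : Fin n → ℕ) (hy : ∀ r, y r ≤ 2 * m)
    (hmono : StrictMono y) (σ τ : Equiv.Perm (Fin n)) :
    R m (cfg (place m y hy σ)) (cfg (place m y hy τ)) := by
  obtain ⟨k, rfl⟩ : ∃ k, n = k + 1 := ⟨n - 1, by omega⟩
  have := all_conn hmn y hy hmono (τ * σ⁻¹) σ
  rwa [inv_mul_cancel_right] at this

end Reach

/-! ### the lower bound -/

/-- coordinate of a vertex: signed distance to the centre along the line; `0` for the pendant vertex -/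
def coord (m : ℕ) (v : Fin (2 * m + 2)) : ℤ := if v.val = 2 * m + 1 then 0 else (v.val : ℤ) - m

lemma coord_adj (m : ℕ) (u v : Fin (2 * m + 2)) (h : (tee m).Adj u v) :
    (coord m v - coord m u).natAbs ≤ 1 := by
  rw [tee_adj] at h
  unfold coord
  have := u.isLt; have := v.isLt
  split_ifs <;> omega

lemma coord_eq (m : ℕ) (u v : Fin (2 * m + 2)) (hne : u ≠ v) (h : coord m u = coord m v) :
    coord m u = 0 := by
  have hne' : u.val ≠ v.val := fun h => hne (Fin.ext h)
  unfold coord at *
  have := u.isLt; have := v.isLt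
  split_ifs at * <;> omega

lemma coord_count (m r : ℕ) :
    (Finset.univ.filter (fun v : Fin (2 * m + 2) => (coord m v).natAbs < r)).card ≤ 2 * r := by
  rcases Nat.eq_zero_or_pos r with rfl | hr
  · simp
  · have h1 : (Finset.univ.filter (fun v : Fin (2 * m + 2) => (coord m v).natAbs < r)).map
        ⟨Fin.val, Fin.val_injective⟩ ⊆ insert (2 * m + 1) (Finset.Ico (m + 1 - r) (m + r)) := by
      intro x hx
      simp only [Finset.mem_map, Finset.mem_filter, Finset.mem_univ, true_and, Function.Embedding.coeFn_mk] at hx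
      obtain ⟨v, hv, rfl⟩ := hx
      rw [Finset.mem_insert, Finset.mem_Ico]
      unfold coord at hv
      have := v.isLt
      split_ifs at hv <;> omega
    rw [← Finset.card_map ⟨Fin.val, Fin.val_injective⟩]
    calc _ ≤ _ := Finset.card_le_card h1
      _ ≤ _ := Finset.card_insert_le _ _
      _ ≤ 2 * r := by rw [Nat.card_Ico]; omega

lemma discrete_ivt (D : ℕ → ℤ) (T : ℕ) (hstep : ∀ s < T, (D (s + 1) - D s).natAbs ≤ 1)
    (h0 : 0 < D 0) (hT : D T < 0) : ∃ s ≤ T, D s = 0 := by
  by_contra hcon
  push Not at hcon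
  have : ∀ s ≤ T, 0 < D s := by
    intro s
    induction s with
    | zero => intro _; exact h0
    | succ s ih =>
      intro hs
      have h1 := ih (by omega)
      have h2 := hstep s (by omega)
      have h3 := hcon (s + 1) hs
      omega
  have := this T le_rfl
  omega

lemma lower (m T J : ℕ) (hm : 0 < m) (c : ℕ → Fin (2 * m + 2) → Fin (m + 1))
    (P Q : Fin m → Fin (2 * m + 2)) (hPinj : Function.Injective P) (hQinj : Function.Injective Q)
    (h0 : c 0 = cfg P) (hT : c T = cfg Q)
    (hrev : ∀ i j, i < j → coord m (P j) < coord m (P i) ∧ coord m (Q i) < coord m (Q j))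
    (hmove : ∀ s < T, Move (tee m) (c s) (c (s + 1))) :
    J * (m * m - m) ≤ 25 * T + 25 * ∑ j ∈ Finset.range J, 4^j := by
  classical
  -- every configuration is a configuration
  have hconf : ∀ s ≤ T, IsConfig (c s) := by
    intro s
    induction s with
    | zero => intro _; rw [h0]; exact cfg_isConfig hPinj
    | succ s ih =>
      intro hs
      have hc := ih (by omega)
      obtain ⟨u, v, h1, h2, h3, h4, h5, h6⟩ := hmove s (by omega)
      intro i hi
      obtain ⟨w, hw1, hw2⟩ := hc i hi
      by_cases hwu : w = u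
      · subst hwu
        refine ⟨v, by show c (s + 1) v = i; rw [h5, hw1], ?_⟩
        intro x hx
        by_contra hxv
        by_cases hxu : x = w
        · subst hxu; simp only [h4] at hx; exact hi hx.symm
        · simp only [h6 x hxu hxv] at hx
          exact hxu (hw2 x hx)
      · have hwv : w ≠ v := by
          rintro rfl
          simp only [h3] at hw1
          exact hi hw1.symm
        refine ⟨w, by show c (s + 1) w = i; rw [h6 w hwu hwv]; exact hw1, ?_⟩
        intro x hx
        by_cases hxu : x = u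
        · subst hxu; simp only [h4] at hx; exact absurd hx.symm hi
        · by_cases hxv : x = v
          · subst hxv
            simp only [h5] at hx
            exact absurd (hw2 u hx).symm hwu
          · simp only [h6 x hxu hxv] at hx
            exact hw2 x hx
  have hex : ∀ s ≤ T, ∀ i : Fin m, ∃ v, c s v = i.succ ∧ ∀ w, c s w = i.succ → w = v := by
    intro s hs i
    obtain ⟨v, hv1, hv2⟩ := hconf s hs i.succ (Fin.succ_ne_zero i)
    exact ⟨v, hv1, hv2⟩
  choose! p hp1 hp2 using hex
  have hpinj : ∀ s ≤ T, ∀ i j, p s i = p s j → i = j := by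
    intro s hs i j hij
    have := hp1 s hs i
    rw [hij, hp1 s hs j] at this
    exact (Fin.succ_injective _ this).symm
  have hstep : ∀ s, ∃ i : Fin m, s < T → ((∀ j, j ≠ i → p (s + 1) j = p s j) ∧ (tee m).Adj (p s i) (p (s + 1) i)) := by
    intro s
    by_cases hs : s < T
    · obtain ⟨u, v, h1, h2, h3, h4, h5, h6⟩ := hmove s hs
      obtain ⟨i, hi⟩ := Fin.exists_succ_eq.2 h2
      refine ⟨i, fun _ => ?_⟩
      have hu : u = p s i := hp2 s hs.le i u hi.symm
      have hv : v = p (s + 1) i := hp2 (s + 1) hs i v (by rw [h5, hi])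
      refine ⟨?_, by rw [← hu, ← hv]; exact h1⟩
      intro j hj
      have hju : p s j ≠ u := by
        rw [hu]; exact fun h => hj (hpinj s hs.le j i h)
      have hjv : p s j ≠ v := by
        intro h
        have := hp1 s hs.le j
        rw [h, h3] at this
        exact Fin.succ_ne_zero j this.symm
      have := h6 (p s j) hju hjv
      rw [hp1 s hs.le j] at this
      exact (hp2 (s + 1) hs j _ this).symm
    · exact ⟨⟨0, hm⟩, fun h => absurd h hs⟩
  choose mv hmv using hstep
  have hP : ∀ i, p 0 i = P i := by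
    intro i
    symm
    apply hp2 0 (Nat.zero_le _) i
    rw [h0, cfg_apply hPinj]
  have hQ : ∀ i, p T i = Q i := by
    intro i
    symm
    apply hp2 T le_rfl i
    rw [hT, cfg_apply hQinj]
  set X : ℕ → Fin m → ℤ := fun s i => coord m (p s i) with hX
  have a1 : ∀ s < T, ∀ j, j ≠ mv s → X (s+1) j = X s j := by
    intro s hs j hj
    simp only [hX]
    rw [(hmv s hs).1 j hj]
  have a2 : ∀ s < T, (X (s+1) (mv s) - X s (mv s)).natAbs ≤ 1 := by
    intro s hs
    exact coord_adj m _ _ (hmv s hs).2
  have a3 : ∀ s ≤ T, ∀ r, (Finset.univ.filter (fun i => (X s i).natAbs < r)).card ≤ 2 * r := by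
    intro s hs r
    refine le_trans ?_ (coord_count m r)
    apply Finset.card_le_card_of_injOn (fun i => p s i)
    · intro i hi
      rw [Finset.mem_coe, Finset.mem_filter] at hi ⊢
      exact ⟨Finset.mem_univ _, hi.2⟩
    · intro i _ j _ hij
      exact hpinj s hs i j hij
  have a4 : ∀ i j, i ≠ j → ∃ s ≤ T, X s i = 0 ∧ X s j = 0 := by
    have main : ∀ i j, i < j → ∃ s ≤ T, X s i = 0 ∧ X s j = 0 := by
      intro i j hij
      obtain ⟨s, hs, hs0⟩ := discrete_ivt (fun s => X s i - X s j) T (by
        intro s hs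
        show ((X (s + 1) i - X (s + 1) j) - (X s i - X s j)).natAbs ≤ 1
        have b2 := a2 s hs
        by_cases hi : i = mv s
        · have hj : j ≠ mv s := by rw [← hi]; exact (ne_of_lt hij).symm
          rw [a1 s hs j hj, hi]; omega
        · rw [a1 s hs i hi]
          by_cases hj : j = mv s
          · rw [hj]; omega
          · rw [a1 s hs j hj]; omega) (by
        simp only [hX, hP]
        have := (hrev i j hij).1; omega) (by
        simp only [hX, hQ]
        have := (hrev i j hij).2; omega)
      have hne : p s i ≠ p s j := fun h => (ne_of_lt hij) (hpinj s hs i j h)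
      have heq : coord m (p s i) = coord m (p s j) := by
        simp only [hX] at hs0; omega
      refine ⟨s, hs, coord_eq m _ _ hne heq, ?_⟩
      simp only [hX]
      rw [← heq]; exact coord_eq m _ _ hne heq
    intro i j hij
    rcases lt_or_gt_of_ne hij with h | h
    · exact main i j h
    · obtain ⟨s, hs, h1, h2⟩ := main j i h
      exact ⟨s, hs, h2, h1⟩
  exact core_bound X mv T a1 a2 a3 a4 J

/-! ### the instance -/

lemma num_bound (p T : ℕ) (hp : 6 ≤ p)
    (h : (p - 3) * (2^p * 2^p - 2^p) ≤ 25 * T + 25 * ∑ j ∈ Finset.range (p - 3), 4^j) :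
    p * (2^p * 2^p) ≤ 128 * T := by
  obtain ⟨q, rfl⟩ : ∃ q, p = q + 3 := ⟨p - 3, by omega⟩
  have hsum : 3 * ∑ j ∈ Finset.range (q + 3 - 3), 4^j + 1 = 4^q := by
    rw [Nat.add_sub_cancel]
    clear h hp
    induction q with
    | zero => simp
    | succ q ih => rw [Finset.sum_range_succ, pow_succ]; omega
  rw [Nat.add_sub_cancel] at h hsum
  have h4 : (2:ℕ)^(q+3) * 2^(q+3) = 64 * 4^q := by
    rw [pow_add]
    have : (4:ℕ)^q = 2^q * 2^q := by rw [← mul_pow]; norm_num
    rw [this]; ring
  have h2 : 2 * (2:ℕ)^(q+3) ≤ 2^(q+3) * 2^(q+3) := by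
    apply Nat.mul_le_mul_right
    calc 2 = 2^1 := by norm_num
      _ ≤ 2^(q+3) := Nat.pow_le_pow_right (by norm_num) (by omega)
  rw [h4] at h h2 ⊢
  set S := ∑ j ∈ Finset.range q, 4^j
  set A := (4:ℕ)^q
  -- 64 A - 2^(q+3) ≥ 32 A
  have h5 : 32 * A ≤ 64 * A - 2^(q+3) := by omega
  have h6 : q * (32 * A) ≤ 25 * T + 25 * S := le_trans (Nat.mul_le_mul_left _ h5) h
  have h7 : 3 * A ≤ q * A := Nat.mul_le_mul_right _ (by omega)
  have h8 : q * (32 * A) = 32 * (q * A) := by ring
  have h9 : (q + 3) * (64 * A) = 64 * (q * A) + 192 * A := by ring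
  rw [h8] at h6
  rw [h9]
  omega

lemma rev_lt {n : ℕ} (i : Fin n) : (Fin.rev i).val = n - 1 - i.val := by
  rw [Fin.val_rev]; omega

/-- Q1 in the affirmative. -/
theorem result : ∃ c : ℝ, 0 < c ∧ ∀ N₀ : ℕ, ∃ N : ℕ, N₀ ≤ N ∧
    ∃ (n : ℕ) (G : SimpleGraph (Fin N)) (f g : Fin N → Fin (n + 1)),
      G.IsTree ∧ n < N ∧ n + longestIsthmus G < N ∧ IsConfig f ∧ IsConfig g ∧
      (∃ t, Transforms G t f g) ∧
      c * (N : ℝ)^2 * Real.log N ≤ (solutionLength G f g : ℝ) := by
  refine ⟨1 / 2304, by norm_num, ?_⟩
  intro N₀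
  set p := max 6 N₀ with hp
  have hp6 : 6 ≤ p := le_max_left _ _
  have hpN : N₀ ≤ p := le_max_right _ _
  have hpp : p < 2^p := Nat.lt_two_pow_self
  set m := 2^p with hm
  have hm0 : 0 < m := by omega
  have hyle : ∀ r : Fin m, r.val ≤ 2 * m := fun r => by have := r.isLt; omega
  have hymono : StrictMono (fun r : Fin m => r.val) := fun a b h => h
  set P : Fin m → Fin (2 * m + 2) := place m (fun r : Fin m => r.val) hyle Fin.revPerm with hP
  set Q : Fin m → Fin (2 * m + 2) := place m (fun r : Fin m => r.val) hyle 1 with hQ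
  have hPinj : Function.Injective P := place_inj _ hyle hymono _
  have hQinj : Function.Injective Q := place_inj _ hyle hymono _
  have hreach : ∃ t, Transforms (tee m) t (cfg P) (cfg Q) := by
    apply transforms_of_reflTransGen
    exact all_conn' hm0 le_rfl _ hyle hymono _ _
  refine ⟨2 * m + 2, by omega, m, tee m, cfg P, cfg Q, tee_isTree m, by omega, ?_,
    cfg_isConfig hPinj, cfg_isConfig hQinj, hreach, ?_⟩
  · have := longestIsthmus_tee m (by omega)
    omega
  · set T := solutionLength (tee m) (cfg P) (cfg Q) with hT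
    have hTmem : Transforms (tee m) T (cfg P) (cfg Q) := Nat.sInf_mem hreach
    obtain ⟨c, hc0, hcT, hcm⟩ := hTmem
    have hlow := lower m T (p - 3) hm0 c P Q hPinj hQinj hc0 hcT (by
      intro i j hij
      rw [Fin.lt_def] at hij
      have := i.isLt; have := j.isLt
      have hr1 : (P i).val = m - 1 - i.val := rev_lt i
      have hr2 : (P j).val = m - 1 - j.val := rev_lt j
      have hr3 : (Q i).val = i.val := rfl
      have hr4 : (Q j).val = j.val := rfl
      unfold coord
      rw [hr1, hr2, hr3, hr4]
      constructor <;> split_ifs <;> omega) hcm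
    have hnum : p * (2^p * 2^p) ≤ 128 * T := num_bound p T hp6 hlow
    -- real estimate
    have hnumR : (p : ℝ) * ((m : ℝ) * m) ≤ 128 * T := by
      rw [hm]; exact_mod_cast hnum
    have hmR : (2 : ℝ) ≤ m := by
      have : 2 ≤ m := by omega
      exact_mod_cast this
    have hN : ((2 * m + 2 : ℕ) : ℝ) ≤ 3 * m := by push_cast; linarith
    have hN0 : (0 : ℝ) < ((2 * m + 2 : ℕ) : ℝ) := by positivity
    have hp6R : (6 : ℝ) ≤ p := by exact_mod_cast hp6
    have hlog : Real.log ((2 * m + 2 : ℕ) : ℝ) ≤ 2 * p := by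
      have h1 : ((2 * m + 2 : ℕ) : ℝ) ≤ (2 : ℝ)^(p + 2) := by
        rw [pow_add]
        have : ((2 : ℝ)^p) = m := by rw [hm]; push_cast; rfl
        rw [this]; linarith
      calc Real.log ((2 * m + 2 : ℕ) : ℝ) ≤ Real.log ((2 : ℝ)^(p + 2)) := Real.log_le_log hN0 h1
        _ = ((p + 2 : ℕ) : ℝ) * Real.log 2 := by rw [Real.log_pow]
        _ ≤ ((p + 2 : ℕ) : ℝ) * 1 := by
            apply mul_le_mul_of_nonneg_left _ (by positivity)
            have := Real.log_two_lt_d9; linarith
        _ ≤ 2 * p := by push_cast; linarith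
    have hlog0 : 0 ≤ Real.log ((2 * m + 2 : ℕ) : ℝ) := Real.log_natCast_nonneg _
    calc 1 / 2304 * ((2 * m + 2 : ℕ) : ℝ)^2 * Real.log ((2 * m + 2 : ℕ) : ℝ)
        ≤ 1 / 2304 * (3 * (m : ℝ))^2 * (2 * p) := by
          apply mul_le_mul _ hlog hlog0 (by positivity)
          apply mul_le_mul_of_nonneg_left _ (by norm_num)
          apply pow_le_pow_left₀ hN0.le hN
      _ = (1 / 128) * ((p : ℝ) * ((m : ℝ) * m)) := by ring
      _ ≤ T := by linarith

end Pool.Agent.Results.MP_3627f5_co.LogLowerBound
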